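import Pool.Agent.H402R2.T4bB

set_option autoImplicit false

/-! Task T4b: the twisted main integral. -/

namespace Pool.Agent.H402R2.T4b

open MeasureTheory Filter Topology Complex Set Pool.Agent.H306R2 Pool.Agent.H306R2.SM

noncomputable section

lemma d3_hasSum (s : ℂ) (hs : 1 < s.re) :
    HasSum (fun n : ℕ => (d3 n : ℂ) * (n : ℂ) ^ (-s)) (riemannZeta s ^ 3) := by
  have h := zetaA_hasSum 3 1 1 (by
    intro n hn
    rw [ArithmeticFunction.one_apply_ne]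
    rintro rfl
    simp at hn) s hs
  have h2 : Dp (1 : ArithmeticFunction ℝ) 1 s = 1 := by
    unfold Dp; simp
  rw [h2, mul_one, mul_one] at h
  have e : ∀ n, (zR ^ 3) n = d3 n := by
    intro n
    have h3 := dA_nat 3
    unfold d3
    rw [← h3, dA_apply]
    norm_num
  simpa only [e] using h

lemma d3_nonneg (n : ℕ) : 0 ≤ d3 n := dv_nonneg (by norm_num) n

lemma d3_zero : d3 0 = 0 := by unfold d3 dv; simp

/-- `Σ d3(n) n^{-2}` -/
def Z3 : ℝ := ∑' n : ℕ, d3 n * ((n : ℝ) ^ 2)⁻¹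

lemma norm_term (n : ℕ) (τ : ℝ) :
    ‖(d3 n : ℂ) * (n : ℂ) ^ (-((2 : ℂ) + τ * I))‖ = d3 n * ((n : ℝ) ^ 2)⁻¹ := by
  rcases Nat.eq_zero_or_pos n with h | h
  · subst h; simp [d3_zero]
  · rw [norm_mul, Complex.norm_real, Real.norm_of_nonneg (d3_nonneg n),
      Complex.norm_natCast_cpow_of_pos h]
    congr 1
    have e : (-((2 : ℂ) + τ * I)).re = -2 := by simp
    rw [e, Real.rpow_neg (by positivity)]
    congr 1
    norm_cast

lemma Z3_summable : Summable (fun n : ℕ => d3 n * ((n : ℝ) ^ 2)⁻¹) := by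
  have h := (d3_hasSum ((2 : ℂ) + (0 : ℝ) * I) (by simp)).summable.norm
  refine h.congr fun n => ?_
  exact norm_term n 0

lemma zeta_le_Z3 (τ : ℝ) : ‖riemannZeta ((2 : ℂ) + τ * I) ^ 3‖ ≤ Z3 := by
  have h := d3_hasSum ((2 : ℂ) + τ * I) (by simp)
  rw [← h.tsum_eq]
  exact tsum_of_norm_bounded Z3_summable.hasSum fun n => (norm_term n τ).le

lemma Z3_nonneg : 0 ≤ Z3 := (norm_nonneg _).trans (zeta_le_Z3 0)

/-- constant factor of `Gf` -/
def KK (k : ℕ) (δ : ℝ) : ℝ := δ ^ (k + 1) * (2 * Real.pi) ^ k / (k.factorial : ℝ)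

lemma inv_pow_eq (ω : ℂ) (hω : 0 < ω.re) (w : ℂ) : (1 / ω) ^ w = ω ^ (-w) := by
  have harg : ω.arg ≠ Real.pi := by
    have h : |ω.arg| < Real.pi / 2 := Complex.abs_arg_lt_pi_div_two_iff.2 (Or.inl hω)
    intro h2
    rw [h2, abs_of_pos Real.pi_pos] at h
    linarith [Real.pi_pos]
  rw [one_div, Complex.inv_cpow _ _ harg, Complex.cpow_neg]

lemma Gf_eq (k : ℕ) (δ : ℝ) (hδ : 0 < δ) (s : ℂ) :
    Gf k δ s = (KK k δ : ℂ) * ((1 / zz δ) ^ (s + k) * Complex.Gamma (s + k)) := by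
  rw [inv_pow_eq _ (by rw [zz_re]; positivity)]
  unfold Gf KK
  change _ * Complex.Gamma (s + k) * (zz δ) ^ (-s - (k : ℂ)) = _
  rw [show -s - (k : ℂ) = -(s + k) by ring]
  ring

/-- the identity of each term on the line `Re s = 2` -/
lemma term_eq (k : ℕ) (δ : ℝ) (hδ : 0 < δ) (r : ℝ) (hr : 0 < r) (n : ℕ) (hn : 1 ≤ n) (s : ℂ) :
    (n : ℂ) ^ (-s) * (Gf k δ s * Complex.exp ((s - 1 / 2) * (Real.log r : ℂ))) =
      ((KK k δ * ((n : ℝ) / r) ^ k * Real.exp (-(1 / 2 * Real.log r)) : ℝ) : ℂ) *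
        ((1 / ((((n : ℝ) / r : ℝ) : ℂ) * zz δ)) ^ (s + k) * Complex.Gamma (s + k)) := by
  have hn0 : (0 : ℝ) < n := by exact_mod_cast hn
  have hx : 0 < (n : ℝ) / r := by positivity
  have hω : 0 < ((((n : ℝ) / r : ℝ) : ℂ) * zz δ).re := by
    rw [Complex.re_ofReal_mul, zz_re]; positivity
  rw [Gf_eq k δ hδ, inv_pow_eq _ hω, inv_pow_eq _ (by rw [zz_re]; positivity)]
  have hω0 : ((((n : ℝ) / r : ℝ) : ℂ) * zz δ) ≠ 0 := by
    intro h; rw [h] at hω; simp at hω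
  have hnC : (n : ℂ) ≠ 0 := by exact_mod_cast hn0.ne'
  rw [Complex.cpow_def_of_ne_zero hnC, Complex.cpow_def_of_ne_zero (zz_ne δ),
    Complex.cpow_def_of_ne_zero hω0, Complex.log_ofReal_mul hx (zz_ne δ)]
  have e1 : Complex.log (n : ℂ) = (Real.log n : ℂ) := (Complex.natCast_log).symm
  have e2 : Real.log ((n : ℝ) / r) = Real.log n - Real.log r := Real.log_div hn0.ne' hr.ne'
  have e3 : (((n : ℝ) / r) ^ k : ℝ) = Real.exp (k * (Real.log n - Real.log r)) := by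
    rw [← e2, ← Real.log_pow, Real.exp_log (by positivity)]
  rw [e1, e2, e3]
  simp only [Complex.ofReal_mul, Complex.ofReal_exp, Complex.ofReal_sub, Complex.ofReal_neg,
    Complex.ofReal_natCast, Complex.ofReal_div, Complex.ofReal_one, Complex.ofReal_ofNat]
  set a := (Real.log n : ℂ)
  set b := (Real.log r : ℂ)
  set L := Complex.log (zz δ)
  have hexp : Complex.exp (a * -s) * (Complex.exp (L * -(s + k)) * Complex.exp ((s - 1 / 2) * b)) =
      Complex.exp (k * (a - b)) * Complex.exp (-(1 / 2 * b)) *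
        Complex.exp ((a - b + L) * -(s + k)) := by
    rw [← Complex.exp_add, ← Complex.exp_add, ← Complex.exp_add, ← Complex.exp_add]
    congr 1
    ring
  calc Complex.exp (a * -s) * ((KK k δ : ℂ) * (Complex.exp (L * -(s + k)) * Complex.Gamma (s + k)) *
        Complex.exp ((s - 1 / 2) * b)) =
      (KK k δ : ℂ) * Complex.Gamma (s + k) * (Complex.exp (a * -s) *
        (Complex.exp (L * -(s + k)) * Complex.exp ((s - 1 / 2) * b))) := by ring
    _ = _ := by rw [hexp]; ring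

/-- weight on the line `Re s = 2` -/
def Wt (k : ℕ) (δ r τ : ℝ) : ℂ :=
  Gf k δ ((2 : ℂ) + τ * I) * Complex.exp ((((2 : ℂ) + τ * I) - 1 / 2) * (Real.log r : ℂ))

lemma Wt_int (k : ℕ) (δ : ℝ) (hδ : 0 < δ) (r : ℝ) (hr : 1 ≤ r) : Integrable (Wt k δ r) := by
  have h := vint (ω := zz δ) (by rw [zz_re]; positivity) (c := 2 + k) (by positivity)
  have e : Wt k δ r = fun τ : ℝ => ((KK k δ : ℂ) * Complex.exp ((((2 : ℂ) + τ * I) - 1 / 2) * (Real.log r : ℂ))) *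
      ((1 / zz δ) ^ ((((2 + k : ℝ) : ℝ) : ℂ) + τ * I) * Complex.Gamma ((((2 + k : ℝ) : ℝ) : ℂ) + τ * I)) := by
    funext τ
    unfold Wt
    rw [Gf_eq k δ hδ, show (2 : ℂ) + τ * I + k = (((2 + k : ℝ) : ℝ) : ℂ) + τ * I by push_cast; ring]
    ring
  rw [e]
  refine h.bdd_mul (c := |KK k δ| * r ^ (3 / 2 : ℝ)) ?_ ?_
  · apply Continuous.aestronglyMeasurable
    fun_prop
  · refine Eventually.of_forall fun τ => ?_
    rw [norm_mul, Complex.norm_real, Real.norm_eq_abs]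
    apply mul_le_mul_of_nonneg_left _ (abs_nonneg _)
    exact exp_norm r hr _ (by simp)

lemma Ph_line (k : ℕ) (δ r τ : ℝ) :
    Ph k δ r ((2 : ℂ) + τ * I) = ∑' n : ℕ, ((d3 n : ℂ) * (n : ℂ) ^ (-((2 : ℂ) + τ * I))) * Wt k δ r τ := by
  rw [tsum_mul_right, (d3_hasSum ((2 : ℂ) + τ * I) (by simp)).tsum_eq]
  unfold Ph Wt
  ring

lemma line_int (k : ℕ) (δ : ℝ) (hδ : 0 < δ) (r : ℝ) (hr : 1 ≤ r) :
    Integrable (fun τ : ℝ => Ph k δ r ((2 : ℂ) + τ * I)) ∧
    ∫ τ : ℝ, Ph k δ r ((2 : ℂ) + τ * I) = ∑' n : ℕ, ((d3 n : ℂ) *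
      ((KK k δ * ((n : ℝ) / r) ^ k * Real.exp (-(1 / 2 * Real.log r)) : ℝ) : ℂ) *
      (2 * Real.pi * Complex.exp (-((((n : ℝ) / r : ℝ) : ℂ) * zz δ)))) := by
  have hW := Wt_int k δ hδ r hr
  set F : ℕ → ℝ → ℂ := fun n τ => ((d3 n : ℂ) * (n : ℂ) ^ (-((2 : ℂ) + τ * I))) * Wt k δ r τ with hF
  have hmeas : ∀ n : ℕ, Continuous fun τ : ℝ => (d3 n : ℂ) * (n : ℂ) ^ (-((2 : ℂ) + τ * I)) := by
    intro n
    rcases Nat.eq_zero_or_pos n with h | h
    · subst h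
      simp only [d3_zero, Complex.ofReal_zero, zero_mul]
      exact continuous_const
    · apply Continuous.mul continuous_const
      apply Continuous.const_cpow (by fun_prop)
      left
      exact_mod_cast h.ne'
  have hFint : ∀ n, Integrable (F n) := by
    intro n
    refine hW.bdd_mul (c := d3 n * ((n : ℝ) ^ 2)⁻¹) (hmeas n).aestronglyMeasurable ?_
    exact Eventually.of_forall fun τ => (norm_term n τ).le
  have hnorm : ∀ n, ∫ τ, ‖F n τ‖ = d3 n * ((n : ℝ) ^ 2)⁻¹ * ∫ τ, ‖Wt k δ r τ‖ := by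
    intro n
    rw [← integral_const_mul]
    apply integral_congr_ae
    refine Eventually.of_forall fun τ => ?_
    simp only [hF]
    rw [norm_mul, norm_term]
  have hsum : Summable fun n => ∫ τ, ‖F n τ‖ := by
    simp_rw [hnorm]
    exact Z3_summable.mul_right _
  have hmain := hasSum_integral_of_summable_integral_norm hFint hsum
  have hPh : (fun τ : ℝ => Ph k δ r ((2 : ℂ) + τ * I)) = fun τ => ∑' n, F n τ := by
    funext τ
    exact Ph_line k δ r τ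
  have hcontPh : Continuous (fun τ : ℝ => Ph k δ r ((2 : ℂ) + τ * I)) := by
    rw [continuous_iff_continuousAt]
    intro τ
    have h1 : ContinuousAt (Ph k δ r) ((2 : ℂ) + τ * I) := by
      apply (Ph_diff k δ r _ (by simp) _).continuousAt
      intro h
      have := congrArg Complex.re h
      simp at this
    exact ContinuousAt.comp (f := fun y : ℝ => (2 : ℂ) + y * I) h1 (by fun_prop)
  constructor
  · refine Integrable.mono' (hW.norm.const_mul Z3) hcontPh.aestronglyMeasurable ?_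
    refine Eventually.of_forall fun τ => ?_
    have : Ph k δ r ((2 : ℂ) + τ * I) = riemannZeta ((2 : ℂ) + τ * I) ^ 3 * Wt k δ r τ := by
      unfold Ph Wt; ring
    rw [this, norm_mul]
    exact mul_le_mul_of_nonneg_right (zeta_le_Z3 τ) (norm_nonneg _)
  · rw [hPh, ← hmain.tsum_eq]
    apply tsum_congr
    intro n
    rcases Nat.eq_zero_or_pos n with h | h
    · subst h
      simp [hF, d3_zero]
    · have hn0 : (0 : ℝ) < n := by exact_mod_cast h
      have hx : 0 < (n : ℝ) / r := by positivity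
      have hω : 0 < ((((n : ℝ) / r : ℝ) : ℂ) * zz δ).re := by
        rw [Complex.re_ofReal_mul, zz_re]; positivity
      have hc := cahen hω (c := 2 + k) (by positivity)
      rw [← hc, mul_assoc, ← integral_const_mul, ← integral_const_mul]
      apply integral_congr_ae
      refine Eventually.of_forall fun τ => ?_
      simp only [hF]
      unfold Wt
      rw [mul_assoc, term_eq k δ hδ r (by linarith) n h]
      rw [show (2 : ℂ) + τ * I + k = (((2 + k : ℝ) : ℝ) : ℂ) + τ * I by push_cast; ring]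

/-- the value of the line integral -/
lemma line_value (k : ℕ) (T : ℝ) (hT : 0 < T) (hk : 1 ≤ k) (h l : ℕ) (hl : 1 ≤ l) (hh : 1 ≤ h)
    (hlh : l ≤ h) :
    ∫ τ : ℝ, Ph k (k / T) ((h : ℝ) / l) ((2 : ℂ) + τ * I) =
      (Real.sqrt ((l : ℝ) / h) : ℂ) * (SS k h l (Yf k T) /
            (((k.factorial : ℝ) * Yf k T ^ (k + 1) : ℝ) : ℂ)) := by
  have hk0 : (0 : ℝ) < k := by exact_mod_cast hk
  have hl0 : (0 : ℝ) < l := by exact_mod_cast hl
  have hh0 : (0 : ℝ) < h := by exact_mod_cast hh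
  have hr : 1 ≤ (h : ℝ) / l := by
    rw [le_div_iff₀ hl0, one_mul]; exact_mod_cast hlh
  have hδ : 0 < (k : ℝ) / T := by positivity
  rw [(line_int k (k / T) hδ ((h : ℝ) / l) hr).2]
  have hpi := Real.pi_pos
  have hY : 2 * Real.pi * ((k : ℝ) / T) = 1 / Yf k T := by
    unfold Yf; field_simp
  have hY0 : 0 < Yf k T := by unfold Yf; positivity
  have hsq : Real.exp (-(1 / 2 * Real.log ((h : ℝ) / l))) = Real.sqrt ((l : ℝ) / h) := by
    rw [Real.sqrt_eq_rpow, Real.rpow_def_of_pos (by positivity)]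
    congr 1
    rw [show (l : ℝ) / h = ((h : ℝ) / l)⁻¹ by rw [inv_div], Real.log_inv]
    ring
  have hKK : KK k (k / T) * (2 * Real.pi) = 1 / ((k.factorial : ℝ) * Yf k T ^ (k + 1)) := by
    unfold KK
    have : ((k : ℝ) / T) ^ (k + 1) * (2 * Real.pi) ^ k / (k.factorial : ℝ) * (2 * Real.pi) =
        (2 * Real.pi * ((k : ℝ) / T)) ^ (k + 1) / (k.factorial : ℝ) := by
      rw [mul_pow (2 * Real.pi) ((k : ℝ) / T), pow_succ (2 * Real.pi)]; ring
    rw [this, hY, one_div, inv_pow]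
    field_simp
  unfold SS
  rw [← tsum_div_const, ← tsum_mul_left]
  apply tsum_congr
  intro n
  have hx : (n : ℝ) / ((h : ℝ) / l) = (n : ℝ) * l / h := by field_simp
  rw [hx, hsq]
  have hexp : Complex.exp (-((((n : ℝ) * l / h : ℝ) : ℂ) * zz (k / T))) =
      (Real.exp (-((n : ℝ) * l / h / Yf k T)) : ℂ) * ee h (-((n : ℤ) * l)) := by
    unfold ee zz
    rw [Complex.ofReal_exp, ← Complex.exp_add]
    congr 1
    have e : ((2 : ℂ) * Real.pi * (((k : ℝ) / T : ℝ) : ℂ)) = ((1 / Yf k T : ℝ) : ℂ) := by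
      rw [← hY]; push_cast; ring
    rw [e]
    push_cast
    ring
  rw [hexp]
  have hKC : (KK k (k / T) : ℂ) * (2 * Real.pi) =
      1 / (((k.factorial : ℝ) * Yf k T ^ (k + 1) : ℝ) : ℂ) := by
    have := congrArg (fun x : ℝ => (x : ℂ)) hKK
    push_cast at this ⊢
    exact this
  push_cast at hKC ⊢
  linear_combination ((d3 n : ℂ) * ((n : ℂ) * l / h) ^ k * (Real.sqrt ((l : ℝ) / h) : ℂ) *
    Complex.exp (-((n : ℂ) * l / h / (Yf k T : ℂ))) * ee h (-((n : ℤ) * l))) * hKC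

/-- the error bound -/
lemma main_bound : ∃ C : ℝ, 0 < C ∧ ∀ (k : ℕ), 2 ≤ k → ∀ δ : ℝ, 0 < δ → ∀ r : ℝ, 1 ≤ r →
    ‖(∫ t in Ioi (0 : ℝ), Ph k δ r (1 / 2 + t * I)) - ∫ τ : ℝ, Ph k δ r ((2 : ℂ) + τ * I)‖ ≤
      C * (((k : ℝ) + 1) * (2 * δ) ^ (k + 1) * r ^ (3 / 2 : ℝ)) := by
  set J0 := ∫ y : ℝ, Real.exp (-(1 / 2 * |y|)) with hJ0
  have hJ : 0 ≤ J0 := integral_nonneg fun y => (Real.exp_pos _).le
  have hZ := Z3_nonneg
  refine ⟨216 * 4 ^ 6 * (2 * Real.exp 2) * (5 / 2) + Z3 * (2 * Real.exp 2) * J0, by positivity,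
    fun k hk δ hδ r hr => ?_⟩
  have hr0 : 0 ≤ r := by linarith
  set E := ((k : ℝ) + 1) * (2 * δ) ^ (k + 1) * r ^ (3 / 2 : ℝ) with hE
  have hE0 : 0 ≤ E := by positivity
  set M := 216 * 4 ^ 6 * (2 * Real.exp 2) * E with hM
  obtain ⟨B, η, hη, hB⟩ := Ph_decay k δ hδ r hr
  have hsh := shift_up (Ph k δ r) (fun s h1 h2 h3 => Ph_diff k δ r s (by linarith) (by
    rintro rfl
    simp only [Complex.one_im] at h3
    linarith)) B η hη hB M (fun s h1 h2 h3 => by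
      refine Ph_small k hk δ hδ r hr s h1 h2 h3.le (by linarith) ?_
      have := Complex.abs_im_le_norm (s - 1)
      simp only [Complex.sub_im, Complex.one_im, sub_zero] at this
      rw [h3, abs_one] at this
      linarith)
  obtain ⟨i1, i2, hdiff⟩ := hsh
  obtain ⟨j2, -⟩ := line_int k δ hδ r hr
  -- the part (0,1] of the critical line
  have hcrit : ∀ t : ℝ, t ∈ Ioc (0 : ℝ) 1 → ‖Ph k δ r (1 / 2 + t * I)‖ ≤ M := by
    intro t ht
    have hre : ((1 : ℂ) / 2 + t * I).re = 1 / 2 := by simp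
    have him : ((1 : ℂ) / 2 + t * I).im = t := by simp
    refine Ph_small k hk δ hδ r hr _ (by rw [hre]) (by rw [hre]; norm_num) (by rw [him]; exact ht.2)
      (by rw [him]; exact ht.1.le) ?_
    have := Complex.abs_re_le_norm ((1 : ℂ) / 2 + t * I - 1)
    rw [Complex.sub_re, hre, Complex.one_re] at this
    have e : |(1 / 2 : ℝ) - 1| = 1 / 2 := by rw [abs_of_neg] <;> norm_num
    rw [e] at this
    exact this
  have hcontc : Continuous (fun t : ℝ => Ph k δ r (1 / 2 + t * I)) := by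
    rw [continuous_iff_continuousAt]
    intro τ
    have h1 : ContinuousAt (Ph k δ r) ((1 : ℂ) / 2 + τ * I) := by
      apply (Ph_diff k δ r _ (by simp) _).continuousAt
      intro h
      have := congrArg Complex.re h
      simp at this
    exact ContinuousAt.comp (f := fun y : ℝ => (1 : ℂ) / 2 + y * I) h1 (by fun_prop)
  have i0 : IntegrableOn (fun t : ℝ => Ph k δ r (1 / 2 + t * I)) (Ioc 0 1) :=
    (hcontc.integrableOn_Icc (a := 0) (b := 1)).mono_set Ioc_subset_Icc_self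
  have hsplit1 : ∫ t in Ioi (0 : ℝ), Ph k δ r (1 / 2 + t * I) =
      (∫ t in Ioc (0 : ℝ) 1, Ph k δ r (1 / 2 + t * I)) +
        ∫ t in Ioi (1 : ℝ), Ph k δ r (1 / 2 + t * I) := by
    rw [← Ioc_union_Ioi_eq_Ioi (zero_le_one : (0 : ℝ) ≤ 1)]
    apply setIntegral_union
    · rw [Set.disjoint_left]
      intro x hx hx2
      exact absurd hx.2 (not_le.2 hx2)
    · exact measurableSet_Ioi
    · exact i0
    · exact i1
  have hsplit2 : ∫ τ : ℝ, Ph k δ r ((2 : ℂ) + τ * I) =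
      (∫ τ in Iic (1 : ℝ), Ph k δ r ((2 : ℂ) + τ * I)) +
        ∫ τ in Ioi (1 : ℝ), Ph k δ r ((2 : ℂ) + τ * I) := by
    rw [← integral_add_compl (measurableSet_Iic (a := (1 : ℝ))) j2, Set.compl_Iic]
  have hb1 : ‖∫ t in Ioc (0 : ℝ) 1, Ph k δ r (1 / 2 + t * I)‖ ≤ M := by
    have := norm_setIntegral_le_of_norm_le_const (μ := volume) (s := Ioc (0 : ℝ) 1)
      (f := fun t : ℝ => Ph k δ r (1 / 2 + t * I)) (C := M) (by simp) hcrit
    simpa using this
  have hb2 : ‖∫ τ in Iic (1 : ℝ), Ph k δ r ((2 : ℂ) + τ * I)‖ ≤ Z3 * (2 * Real.exp 2) * J0 * E := by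
    have hle : ∀ τ ∈ Iic (1 : ℝ), ‖Ph k δ r ((2 : ℂ) + τ * I)‖ ≤
        (Z3 * (2 * Real.exp 2) * E) * Real.exp (-(1 / 2 * |τ|)) := by
      intro τ hτ
      have hτ1 : τ ≤ 1 := hτ
      have a2 := Gf_small k hk δ hδ ((2 : ℂ) + τ * I) (by simp; norm_num) (by simp) (by simpa using hτ1)
      have a3 := exp_norm r hr ((2 : ℂ) + τ * I) (by simp)
      have him : ((2 : ℂ) + τ * I).im = τ := by simp
      rw [him] at a2
      unfold Ph
      rw [norm_mul, norm_mul]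
      calc _ ≤ Z3 * (2 * ((k : ℝ) + 1) * (2 * δ) ^ (k + 1) * Real.exp 2 * Real.exp (-(1 / 2 * |τ|))) *
            r ^ (3 / 2 : ℝ) := by
            gcongr
            exact zeta_le_Z3 τ
        _ = _ := by rw [hE]; ring
    have hI := (int_exp_abs (a := 1 / 2) (by norm_num)).const_mul (Z3 * (2 * Real.exp 2) * E)
    calc ‖∫ τ in Iic (1 : ℝ), Ph k δ r ((2 : ℂ) + τ * I)‖ ≤
        ∫ τ in Iic (1 : ℝ), (Z3 * (2 * Real.exp 2) * E) * Real.exp (-(1 / 2 * |τ|)) := by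
          apply norm_integral_le_of_norm_le hI.integrableOn
          exact (ae_restrict_iff' measurableSet_Iic).2 (Eventually.of_forall hle)
      _ ≤ ∫ τ : ℝ, (Z3 * (2 * Real.exp 2) * E) * Real.exp (-(1 / 2 * |τ|)) := by
          apply setIntegral_le_integral hI
          refine Eventually.of_forall fun τ => ?_
          simp only [Pi.zero_apply]
          positivity
      _ = _ := by rw [integral_const_mul, ← hJ0]; ring
  rw [hsplit1, hsplit2]
  have e : ∀ a b c d : ℂ, a + b - (c + d) = a + (b - d) - c := by intro a b c d; ring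
  rw [e]
  calc _ ≤ ‖∫ t in Ioc (0 : ℝ) 1, Ph k δ r (1 / 2 + t * I)‖ +
      ‖(∫ t in Ioi (1 : ℝ), Ph k δ r (1 / 2 + t * I)) - ∫ τ in Ioi (1 : ℝ), Ph k δ r ((2 : ℂ) + τ * I)‖ +
      ‖∫ τ in Iic (1 : ℝ), Ph k δ r ((2 : ℂ) + τ * I)‖ :=
        (norm_sub_le _ _).trans (by gcongr; exact norm_add_le _ _)
    _ ≤ M + 3 / 2 * M + Z3 * (2 * Real.exp 2) * J0 * E := by gcongr
    _ = _ := by rw [hM]; ring

lemma final_est (C : ℝ) (hC : 0 < C) : ∀ᶠ T : ℝ in atTop, ∀ k : ℕ, Real.log T ^ 2 ≤ k →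
    (k : ℝ) ≤ 4 * Real.log T ^ 2 → 2 ≤ k ∧
    C * (((k : ℝ) + 1) * (2 * (k / T)) ^ (k + 1) * T ^ (3 / 2 : ℝ)) ≤ T ^ (-6 : ℝ) := by
  have e1 : ∀ᶠ T : ℝ in atTop, 20 ≤ Real.log T :=
    Real.tendsto_log_atTop.eventually_ge_atTop 20
  have e2 : ∀ᶠ T : ℝ in atTop, (8 + 5 * C) * Real.log T ^ (2 : ℝ) ≤ T ^ (1 / 2 : ℝ) := by
    have h := (isLittleO_log_rpow_rpow_atTop 2 (show (0 : ℝ) < 1 / 2 by norm_num)).bound
      (show (0 : ℝ) < 1 / (8 + 5 * C) by positivity)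
    filter_upwards [h, eventually_ge_atTop 1] with T hT hT1
    rw [Real.norm_of_nonneg (Real.rpow_nonneg (Real.log_nonneg hT1) _),
      Real.norm_of_nonneg (Real.rpow_nonneg (by linarith) _)] at hT
    calc (8 + 5 * C) * Real.log T ^ (2 : ℝ) ≤ (8 + 5 * C) * (1 / (8 + 5 * C) * T ^ (1 / 2 : ℝ)) := by
          gcongr
      _ = T ^ (1 / 2 : ℝ) := by field_simp
  filter_upwards [e1, e2, eventually_ge_atTop 1] with T h1 h2 h3 k hk1 hk2
  have hT0 : 0 < T := by linarith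
  have h2' : (8 + 5 * C) * Real.log T ^ 2 ≤ T ^ (1 / 2 : ℝ) := by
    rw [← Real.rpow_natCast]; exact_mod_cast h2
  clear h2 e2
  have hk20 : (20 : ℝ) ≤ k := by nlinarith
  have hk20' : 20 ≤ k := by exact_mod_cast hk20
  refine ⟨by omega, ?_⟩
  have hl0 : 0 ≤ Real.log T ^ 2 := by positivity
  have hCL : 0 ≤ C * Real.log T ^ 2 := by positivity
  have s1 : 2 * ((k : ℝ) / T) ≤ T ^ (-(1 / 2) : ℝ) := by
    have : 2 * (k : ℝ) ≤ T ^ (1 / 2 : ℝ) := by
      have h8 : 8 * Real.log T ^ 2 + 5 * (C * Real.log T ^ 2) ≤ T ^ (1 / 2 : ℝ) :=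
        le_trans (le_of_eq (by ring)) h2'
      linarith
    rw [← mul_div_assoc, div_le_iff₀ hT0]
    refine this.trans (le_of_eq ?_)
    nth_rewrite 3 [← Real.rpow_one T]
    rw [← Real.rpow_add hT0]
    norm_num
  have s2 : (2 * ((k : ℝ) / T)) ^ (k + 1) ≤ T ^ (-10 : ℝ) := by
    have hle1 : T ^ (-(1 / 2) : ℝ) ≤ 1 := Real.rpow_le_one_of_one_le_of_nonpos h3 (by norm_num)
    have hnn : 0 ≤ T ^ (-(1 / 2) : ℝ) := by positivity
    calc (2 * ((k : ℝ) / T)) ^ (k + 1) ≤ (T ^ (-(1 / 2) : ℝ)) ^ (k + 1) := by gcongr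
      _ ≤ (T ^ (-(1 / 2) : ℝ)) ^ 20 := pow_le_pow_of_le_one hnn hle1 (by omega)
      _ = T ^ (-10 : ℝ) := by
          rw [← Real.rpow_natCast, ← Real.rpow_mul hT0.le]
          norm_num
  have s3 : C * ((k : ℝ) + 1) ≤ T ^ (1 / 2 : ℝ) := by
    have q1 : C * (k : ℝ) ≤ C * (4 * Real.log T ^ 2) := mul_le_mul_of_nonneg_left hk2 hC.le
    have q2 : C * 1 ≤ C * Real.log T ^ 2 := mul_le_mul_of_nonneg_left (by nlinarith) hC.le
    have h8 : 8 * Real.log T ^ 2 + 5 * (C * Real.log T ^ 2) ≤ T ^ (1 / 2 : ℝ) :=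
        le_trans (le_of_eq (by ring)) h2'
    have h9 : C * ((k : ℝ) + 1) = C * k + C * 1 := by ring
    rw [h9]
    linarith
  calc C * (((k : ℝ) + 1) * (2 * (k / T)) ^ (k + 1) * T ^ (3 / 2 : ℝ)) =
      (C * ((k : ℝ) + 1)) * (2 * (k / T)) ^ (k + 1) * T ^ (3 / 2 : ℝ) := by ring
    _ ≤ T ^ (1 / 2 : ℝ) * T ^ (-10 : ℝ) * T ^ (3 / 2 : ℝ) := by gcongr
    _ = T ^ (-8 : ℝ) := by
        rw [← Real.rpow_add hT0, ← Real.rpow_add hT0]; norm_num
    _ ≤ T ^ (-6 : ℝ) := Real.rpow_le_rpow_of_exponent_le h3 (by norm_num)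

end

end Pool.Agent.H402R2.T4b

namespace Pool.Agent.H402R2

open Finset Filter Topology MeasureTheory Complex Pool.Agent.H306R2 Pool.Agent.H306R2.SM

/-- T4b -/
theorem twist_main : ∀ᶠ T : ℝ in atTop, ∀ k : ℕ, Real.log T ^ 2 ≤ k → (k : ℝ) ≤ 4 * Real.log T ^ 2 →
      ∀ h l : ℕ, 1 ≤ l → l ≤ h → (h : ℝ) ≤ T →
        ‖(∫ t in Set.Ioi (0 : ℝ), riemannZeta (cl t) ^ 3 * Gf k (k / T) (cl t) *
            ef (Real.log ((h : ℝ) / l)) t) -
          (Real.sqrt ((l : ℝ) / h) : ℂ) * (SS k h l (Yf k T) /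
            (((k.factorial : ℝ) * Yf k T ^ (k + 1) : ℝ) : ℂ))‖ ≤ T ^ (-6 : ℝ) := by
  obtain ⟨C, hC, hb⟩ := T4b.main_bound
  filter_upwards [T4b.final_est C hC, eventually_ge_atTop 1] with T hT hT1 k hk1 hk2 h l hl hlh hhT
  obtain ⟨hk, hfin⟩ := hT k hk1 hk2
  have hT0 : 0 < T := by linarith
  have hk0 : (0 : ℝ) < k := by
    have : (2 : ℝ) ≤ k := by exact_mod_cast hk
    linarith
  have hh : 1 ≤ h := hl.trans hlh
  have hl0 : (1 : ℝ) ≤ l := by exact_mod_cast hl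
  have hh0 : (1 : ℝ) ≤ h := by exact_mod_cast hh
  have hr : 1 ≤ (h : ℝ) / l := by
    rw [le_div_iff₀ (by linarith), one_mul]; exact_mod_cast hlh
  have hrT : (h : ℝ) / l ≤ T := by
    rw [div_le_iff₀ (by linarith)]
    nlinarith
  have h1 := hb k hk (k / T) (by positivity) ((h : ℝ) / l) hr
  rw [T4b.line_value k T hT0 (by omega) h l hl hh hlh] at h1
  have e : ∫ t in Set.Ioi (0 : ℝ), riemannZeta (cl t) ^ 3 * Gf k (k / T) (cl t) *
            ef (Real.log ((h : ℝ) / l)) t =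
      ∫ t in Set.Ioi (0 : ℝ), T4b.Ph k (k / T) ((h : ℝ) / l) (1 / 2 + t * I) := by
    apply integral_congr_ae
    refine Eventually.of_forall fun t => ?_
    simp only [T4b.Ph, cl, ef]
    congr 2
    push_cast
    ring
  rw [e]
  refine h1.trans (le_trans ?_ hfin)
  have : ((h : ℝ) / l) ^ (3 / 2 : ℝ) ≤ T ^ (3 / 2 : ℝ) :=
    Real.rpow_le_rpow (by positivity) hrT (by norm_num)
  gcongr

end Pool.Agent.H402R2
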