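import Mathlib
import Pool.Agent.Helper242.KK.Gam1

set_option autoImplicit false

/-! Analysis lemmas for task T4b (Cahen-Mellin integral with complex parameter, contour shift). -/

namespace Pool.Agent.H402R2.T4b

open MeasureTheory Filter Topology Complex Set

lemma int_exp_abs {a : ℝ} (ha : 0 < a) : Integrable (fun y : ℝ => Real.exp (-(a * |y|))) := by
  have hpos : IntegrableOn (fun y : ℝ => Real.exp (-(a * |y|))) (Ioi 0) := by
    refine (exp_neg_integrableOn_Ioi 0 ha).congr_fun ?_ measurableSet_Ioi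
    intro y hy
    simp only
    rw [abs_of_pos hy]
    congr 1
    ring
  have hneg : IntegrableOn (fun y : ℝ => Real.exp (-(a * |y|))) (Iic 0) := by
    rw [← Measure.map_neg_eq_self (volume : Measure ℝ)]
    let m : MeasurableEmbedding fun x : ℝ => -x := (Homeomorph.neg ℝ).measurableEmbedding
    rw [m.integrableOn_map_iff]
    simp_rw [Function.comp_def, abs_neg, neg_preimage, neg_Iic, neg_zero]
    exact Iff.mpr integrableOn_Ici_iff_integrableOn_Ioi hpos
  rw [← integrableOn_univ, ← Iic_union_Ioi]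
  exact hneg.union hpos

lemma int_rpow_exp {s b : ℝ} (hs : -1 < s) (hb : 0 < b) :
    IntegrableOn (fun x : ℝ => x ^ s * Real.exp (-(b * x))) (Ioi 0) := by
  have h := integrableOn_rpow_mul_exp_neg_mul_rpow hs one_pos hb
  refine h.congr_fun (fun x _ => ?_) measurableSet_Ioi
  simp only [Real.rpow_one, neg_mul]

lemma cpow_exp_meas (a r : ℂ) :
    AEStronglyMeasurable (fun t : ℝ => (t : ℂ) ^ (a - 1) * Complex.exp (-(r * t)))
      (volume.restrict (Ioi 0)) := by
  refine ContinuousOn.aestronglyMeasurable ?_ measurableSet_Ioi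
  refine ContinuousOn.mul ?_ (by fun_prop)
  intro t ht
  exact (Complex.continuousAt_ofReal_cpow_const t (a - 1) (Or.inr (ne_of_gt ht))).continuousWithinAt

lemma rot_deriv {a r : ℂ} (ha : 0 < a.re) (hr : 0 < r.re) :
    HasDerivAt (fun r : ℂ => ∫ t : ℝ in Ioi 0, (t : ℂ) ^ (a - 1) * Complex.exp (-(r * t)))
      (∫ t : ℝ in Ioi 0, (t : ℂ) ^ (a - 1) * (Complex.exp (-(r * t)) * (-(1 * t)))) r := by
  have hpos : 0 < r.re / 2 := by positivity
  refine (hasDerivAt_integral_of_dominated_loc_of_deriv_le (μ := volume.restrict (Ioi (0:ℝ)))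
    (F := fun (r : ℂ) (t : ℝ) => (t : ℂ) ^ (a - 1) * Complex.exp (-(r * t)))
    (F' := fun (r : ℂ) (t : ℝ) => (t : ℂ) ^ (a - 1) * (Complex.exp (-(r * t)) * (-(1 * t))))
    (s := Metric.ball r (r.re / 2)) (bound := fun t : ℝ => t ^ a.re * Real.exp (-(r.re / 2 * t)))
    (Metric.ball_mem_nhds r hpos) ?_ ?_ ?_ ?_ ?_ ?_).2
  · exact Eventually.of_forall fun r => cpow_exp_meas a r
  · refine Integrable.mono' (int_rpow_exp (s := a.re - 1) (b := r.re) (by linarith) hr)
      (cpow_exp_meas a r) ?_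
    refine (ae_restrict_iff' measurableSet_Ioi).2 (Eventually.of_forall fun t ht => ?_)
    have ht0 : (0:ℝ) < t := ht
    rw [norm_mul, Complex.norm_cpow_eq_rpow_re_of_pos ht0, Complex.norm_exp]
    simp
  · have h := (cpow_exp_meas a r).mul (f := fun t : ℝ => (t : ℂ) ^ (a - 1) * Complex.exp (-(r * t)))
      (g := fun t : ℝ => (-(1 * (t : ℂ)))) (by fun_prop)
    refine h.congr (Eventually.of_forall fun t => ?_)
    simp only [Pi.mul_apply]
    ring
  · refine (ae_restrict_iff' measurableSet_Ioi).2 (Eventually.of_forall fun t ht z hz => ?_)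
    have ht0 : (0:ℝ) < t := ht
    have hz' : r.re / 2 ≤ z.re := by
      have h1 : ‖z - r‖ < r.re / 2 := by simpa [dist_eq_norm] using hz
      have h2 := (abs_le.1 ((Complex.abs_re_le_norm (z - r)).trans h1.le)).1
      rw [Complex.sub_re] at h2
      linarith
    rw [norm_mul, Complex.norm_cpow_eq_rpow_re_of_pos ht0, norm_mul, Complex.norm_exp]
    have e1 : ‖(-(1 * (t : ℂ)))‖ = t := by
      rw [one_mul, norm_neg, Complex.norm_real, Real.norm_of_nonneg ht0.le]
    have e2 : (a - 1).re = a.re - 1 := by simp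
    have e3 : (-(z * (t : ℂ))).re = -(z.re * t) := by simp
    rw [e1, e2, e3]
    have e4 : t ^ a.re = t ^ (a.re - 1) * t := by
      rw [← Real.rpow_add_one ht0.ne']; congr 1; ring
    rw [e4]
    have h5 : Real.exp (-(z.re * t)) ≤ Real.exp (-(r.re / 2 * t)) :=
      Real.exp_le_exp.2 (neg_le_neg (mul_le_mul_of_nonneg_right hz' ht0.le))
    have h6 : 0 ≤ t ^ (a.re - 1) * t := by positivity
    calc t ^ (a.re - 1) * (Real.exp (-(z.re * t)) * t) =
        t ^ (a.re - 1) * t * Real.exp (-(z.re * t)) := by ring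
      _ ≤ _ := mul_le_mul_of_nonneg_left h5 h6
  · exact int_rpow_exp (by linarith) hpos
  · refine Eventually.of_forall fun t z _ => ?_
    exact ((((hasDerivAt_id z).mul_const (t : ℂ)).neg).cexp).const_mul _

/-- Laplace transform of a power (proof by helper242). -/
lemma rot_formula {a r : ℂ} (ha : 0 < a.re) (hr : 0 < r.re) :
    ∫ t : ℝ in Ioi 0, (t : ℂ) ^ (a - 1) * Complex.exp (-(r * t)) = (1 / r) ^ a * Complex.Gamma a := by
  have hU : IsOpen {z : ℂ | 0 < z.re} := isOpen_lt continuous_const Complex.continuous_re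
  have hpre : IsPreconnected {z : ℂ | 0 < z.re} := (convex_halfSpace_re_gt 0).isPreconnected
  have h1 : AnalyticOnNhd ℂ (fun r : ℂ => ∫ t : ℝ in Ioi 0, (t : ℂ) ^ (a - 1) * Complex.exp (-(r * t)))
      {z : ℂ | 0 < z.re} := by
    refine DifferentiableOn.analyticOnNhd (fun z hz => ?_) hU
    exact (rot_deriv ha hz).differentiableAt.differentiableWithinAt
  have h2 : AnalyticOnNhd ℂ (fun r : ℂ => (1 / r) ^ a * Complex.Gamma a) {z : ℂ | 0 < z.re} := by
    refine DifferentiableOn.analyticOnNhd (fun z hz => ?_) hU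
    have hz0 : z ≠ 0 := by
      rintro rfl
      simp at hz
    have hz1 : 0 < (1 / z).re := by
      rw [one_div, Complex.inv_re]
      exact div_pos hz (Complex.normSq_pos.2 hz0)
    have h3 : DifferentiableAt ℂ (fun r : ℂ => 1 / r) z := by
      simp only [one_div]
      exact differentiableAt_inv hz0
    exact ((h3.cpow_const (Or.inl hz1)).mul_const _).differentiableWithinAt
  refine h1.eqOn_of_preconnected_of_frequently_eq h2 hpre (z₀ := 1) (by simp) ?_ hr
  have ht : Tendsto (fun x : ℝ => (x : ℂ)) (𝓝[≠] 1) (𝓝[≠] (1 : ℂ)) := by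
    refine tendsto_nhdsWithin_iff.2 ⟨?_, ?_⟩
    · exact (Complex.continuous_ofReal.tendsto' (1:ℝ) (1:ℂ) (by simp)).mono_left nhdsWithin_le_nhds
    · filter_upwards [self_mem_nhdsWithin] with x hx
      simp only [mem_compl_iff, mem_singleton_iff] at hx ⊢
      exact_mod_cast hx
  refine ht.frequently (Eventually.frequently ?_)
  have h0 : ∀ᶠ x : ℝ in 𝓝[≠] 1, 0 < x := nhdsWithin_le_nhds (lt_mem_nhds one_pos)
  filter_upwards [h0] with x hx
  exact Complex.integral_cpow_mul_exp_neg_mul_Ioi ha hx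

lemma mell {ω : ℂ} (hω : 0 < ω.re) {s : ℂ} (hs : 0 < s.re) :
    mellin (fun x : ℝ => Complex.exp (-(ω * x))) s = (1 / ω) ^ s * Complex.Gamma s := by
  rw [← rot_formula hs hω]
  unfold mellin
  simp only [smul_eq_mul]

lemma Gamma_line_cont {c : ℝ} (hc : 0 < c) : Continuous (fun y : ℝ => Gamma ((c : ℂ) + y * I)) := by
  rw [continuous_iff_continuousAt]
  intro y
  have h1 : ContinuousAt Gamma ((c : ℂ) + y * I) := by
    apply (Complex.differentiableAt_Gamma _ _).continuousAt
    intro m hm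
    have := congrArg Complex.re hm
    simp at this
    have : (0:ℝ) ≤ m := Nat.cast_nonneg m
    linarith
  exact ContinuousAt.comp (f := fun y : ℝ => (c : ℂ) + y * I) h1 (by fun_prop)

lemma vint {ω : ℂ} (hω : 0 < ω.re) {c : ℝ} (hc : 0 < c) :
    Integrable (fun y : ℝ => (1 / ω) ^ ((c : ℂ) + y * I) * Complex.Gamma ((c : ℂ) + y * I)) := by
  have hω0 : ω ≠ 0 := by rintro rfl; simp at hω
  have hne : (1 / ω) ≠ 0 := one_div_ne_zero hω0
  have hre : 0 < (1 / ω).re := by
    rw [one_div, Complex.inv_re]; exact div_pos hω (Complex.normSq_pos.2 hω0)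
  have harg : |arg (1 / ω)| < Real.pi / 2 := Complex.abs_arg_lt_pi_div_two_iff.2 (Or.inl hre)
  set φ := |arg (1 / ω)| with hφ
  have hφ0 : 0 ≤ φ := abs_nonneg _
  set θ := (φ + Real.pi / 2) / 2 with hθ
  have hpi := Real.pi_pos
  have hθ0 : 0 ≤ θ := by positivity
  have hθ1 : θ < Real.pi / 2 := by rw [hθ]; linarith
  have hcos : 0 < Real.cos θ := Real.cos_pos_of_mem_Ioo ⟨by linarith [Real.pi_pos], hθ1⟩
  have hb := int_exp_abs (a := θ - φ) (by rw [hθ]; linarith)
  refine Integrable.mono' (hb.const_mul (‖1 / ω‖ ^ c * (Real.Gamma c / Real.cos θ ^ c))) ?_ ?_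
  · apply Continuous.aestronglyMeasurable
    apply Continuous.mul _ (Gamma_line_cont hc)
    apply Continuous.const_cpow (by fun_prop)
    left; exact hne
  · refine Eventually.of_forall fun y => ?_
    rw [norm_mul, norm_cpow_of_ne_zero hne]
    have h1 := Pool.Agent.Helper242.KK.norm_Gamma_le_of_angle (σ := c) (v := y) (θ := θ) hc hθ0 hθ1
    have e1 : ((c : ℂ) + y * I).re = c := by simp
    have e2 : ((c : ℂ) + y * I).im = y := by simp
    rw [e1, e2]
    have h2 : ‖1 / ω‖ ^ c / Real.exp (arg (1 / ω) * y) ≤ ‖1 / ω‖ ^ c * Real.exp (φ * |y|) := by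
      rw [div_eq_mul_inv, ← Real.exp_neg]
      apply mul_le_mul_of_nonneg_left _ (by positivity)
      apply Real.exp_le_exp.2
      have := neg_abs_le (arg (1 / ω) * y)
      rw [abs_mul] at this
      linarith
    have h3 : 0 ≤ Real.exp (-θ * |y|) * Real.Gamma c / Real.cos θ ^ c := by
      have := Real.Gamma_pos_of_pos hc
      positivity
    calc ‖1 / ω‖ ^ c / Real.exp (arg (1 / ω) * y) * ‖Complex.Gamma ((c : ℂ) + y * I)‖
        ≤ (‖1 / ω‖ ^ c * Real.exp (φ * |y|)) * (Real.exp (-θ * |y|) * Real.Gamma c / Real.cos θ ^ c) :=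
          mul_le_mul h2 h1 (norm_nonneg _) (by positivity)
      _ = ‖1 / ω‖ ^ c * (Real.Gamma c / Real.cos θ ^ c) * (Real.exp (φ * |y|) * Real.exp (-θ * |y|)) := by
          ring
      _ = _ := by
          rw [← Real.exp_add]
          congr 2
          ring

/-- Cahen-Mellin integral with a complex parameter. -/
theorem cahen {ω : ℂ} (hω : 0 < ω.re) {c : ℝ} (hc : 0 < c) :
    ∫ y : ℝ, (1 / ω) ^ ((c : ℂ) + y * I) * Complex.Gamma ((c : ℂ) + y * I) =
      2 * Real.pi * Complex.exp (-ω) := by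
  have hre : ∀ y : ℝ, 0 < ((c : ℂ) + y * I).re := fun y => by simpa using hc
  have h := mellinInv_mellin_eq c (fun x : ℝ => Complex.exp (-(ω * x))) one_pos
    (by
      unfold MellinConvergent
      refine Integrable.mono' (int_rpow_exp (s := c - 1) (b := ω.re) (by linarith) hω)
        (by simpa only [smul_eq_mul] using cpow_exp_meas (c : ℂ) ω) ?_
      refine (ae_restrict_iff' measurableSet_Ioi).2 (Eventually.of_forall fun t ht => ?_)
      have ht0 : (0:ℝ) < t := ht
      rw [norm_smul, Complex.norm_cpow_eq_rpow_re_of_pos ht0, Complex.norm_exp]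
      simp)
    (by
      rw [VerticalIntegrable]
      refine (vint hω hc).congr (Eventually.of_forall fun y => ?_)
      simp only
      rw [mell hω (hre y)])
    (by fun_prop)
  have e : ∀ y : ℝ, ((1 : ℝ) : ℂ) ^ (-((c : ℂ) + y * I)) •
      mellin (fun x : ℝ => Complex.exp (-(ω * x))) ((c : ℂ) + y * I) =
      (1 / ω) ^ ((c : ℂ) + y * I) * Complex.Gamma ((c : ℂ) + y * I) := by
    intro y
    rw [mell hω (hre y), Complex.ofReal_one, Complex.one_cpow, one_smul]
  simp only [mellinInv, e] at h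
  rw [Complex.ofReal_one, mul_one] at h
  rw [← h]
  generalize (∫ y : ℝ, (1 / ω) ^ ((c : ℂ) + y * I) * Complex.Gamma ((c : ℂ) + y * I)) = J
  rw [Complex.real_smul]
  push_cast
  have hpi : (Real.pi : ℂ) ≠ 0 := by exact_mod_cast Real.pi_ne_zero
  field_simp

/-- Contour shift for the part above `Im s = 1`. -/
theorem shift_up (Ψ : ℂ → ℂ)
    (hd : ∀ s : ℂ, 1 / 2 ≤ s.re → s.re ≤ 2 → 1 ≤ s.im → DifferentiableAt ℂ Ψ s) (B η : ℝ) (hη : 0 < η)
    (hB : ∀ s : ℂ, 1 / 2 ≤ s.re → s.re ≤ 2 → 1 ≤ s.im → ‖Ψ s‖ ≤ B * Real.exp (-(η * s.im))) (M : ℝ)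
    (hM : ∀ s : ℂ, 1 / 2 ≤ s.re → s.re ≤ 2 → s.im = 1 → ‖Ψ s‖ ≤ M) :
    IntegrableOn (fun y : ℝ => Ψ (1 / 2 + y * I)) (Ioi 1) ∧
    IntegrableOn (fun y : ℝ => Ψ (2 + y * I)) (Ioi 1) ∧
    ‖(∫ y in Ioi (1 : ℝ), Ψ (1 / 2 + y * I)) - ∫ y in Ioi (1 : ℝ), Ψ (2 + y * I)‖ ≤ 3 / 2 * M := by
  have hint : ∀ c : ℝ, 1 / 2 ≤ c → c ≤ 2 → IntegrableOn (fun y : ℝ => Ψ ((c : ℂ) + y * I)) (Ioi 1) := by
    intro c hc1 hc2
    have hE : IntegrableOn (fun y : ℝ => B * Real.exp (-(η * y))) (Ioi 1) := by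
      have := (exp_neg_integrableOn_Ioi 1 hη).const_mul B
      simp only [neg_mul] at this
      exact this
    refine Integrable.mono' hE ?_ ?_
    · refine ContinuousOn.aestronglyMeasurable ?_ measurableSet_Ioi
      intro y hy
      have hy1 : (1 : ℝ) < y := hy
      apply ContinuousAt.continuousWithinAt
      have h1 : ContinuousAt Ψ ((c : ℂ) + y * I) :=
        (hd _ (by simpa using hc1) (by simpa using hc2) (by simpa using hy1.le)).continuousAt
      exact ContinuousAt.comp (f := fun y : ℝ => (c : ℂ) + y * I) h1 (by fun_prop)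
    · refine (ae_restrict_iff' measurableSet_Ioi).2 (Eventually.of_forall fun y hy => ?_)
      have hy1 : (1 : ℝ) < y := hy
      have := hB ((c : ℂ) + y * I) (by simpa using hc1) (by simpa using hc2) (by simpa using hy1.le)
      simpa using this
  have i1 := hint (1 / 2) le_rfl (by norm_num)
  have i2 := hint 2 (by norm_num) le_rfl
  have c1 : (((1 / 2 : ℝ) : ℂ)) = 1 / 2 := by push_cast; rfl
  have c2 : (((2 : ℝ) : ℂ)) = 2 := by push_cast; rfl
  rw [c1] at i1
  rw [c2] at i2
  refine ⟨i1, i2, ?_⟩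
  have t1 := intervalIntegral_tendsto_integral_Ioi 1 i1 tendsto_id
  have t2 := intervalIntegral_tendsto_integral_Ioi 1 i2 tendsto_id
  have t3 : Tendsto (fun R : ℝ => ∫ x in (1 / 2 : ℝ)..2, Ψ (x + R * I)) atTop (𝓝 0) := by
    have hb : ∀ᶠ R : ℝ in atTop, ‖∫ x in (1 / 2 : ℝ)..2, Ψ (x + R * I)‖ ≤
        B * Real.exp (-(η * R)) * |2 - 1 / 2| := by
      filter_upwards [eventually_ge_atTop 1] with R hR
      apply intervalIntegral.norm_integral_le_of_norm_le_const
      intro x hx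
      rw [uIoc_of_le (by norm_num)] at hx
      have := hB ((x : ℂ) + R * I) (by simpa using hx.1.le) (by simpa using hx.2) (by simpa using hR)
      simpa using this
    refine squeeze_zero_norm' hb ?_
    have h0 : Tendsto (fun R : ℝ => Real.exp (-(η * R))) atTop (𝓝 0) := by
      apply Real.tendsto_exp_neg_atTop_nhds_zero.comp
      exact tendsto_id.const_mul_atTop hη
    have := (h0.const_mul B).mul_const |(2 : ℝ) - 1 / 2|
    simpa using this
  have hrect : ∀ R : ℝ, 1 ≤ R →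
      (∫ y in (1 : ℝ)..R, Ψ (1 / 2 + y * I)) - (∫ y in (1 : ℝ)..R, Ψ (2 + y * I)) =
      I * ((∫ x in (1 / 2 : ℝ)..2, Ψ (x + R * I)) - (∫ x in (1 / 2 : ℝ)..2, Ψ (x + (1 : ℝ) * I))) := by
    intro R hR
    have h := Complex.integral_boundary_rect_eq_zero_of_differentiableOn Ψ ⟨1 / 2, 1⟩ ⟨2, R⟩ ?_
    · simp only [smul_eq_mul] at h
      rw [c1, c2] at h
      have hI : I * I = -1 := Complex.I_mul_I
      linear_combination I * h + ((∫ y in (1 : ℝ)..R, Ψ (1 / 2 + y * I)) -
        (∫ y in (1 : ℝ)..R, Ψ (2 + y * I))) * hI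
    · intro s hs
      simp only at hs
      rw [Complex.mem_reProdIm] at hs
      obtain ⟨h1, h2⟩ := hs
      rw [uIcc_of_le (by norm_num)] at h1
      rw [uIcc_of_le hR] at h2
      exact (hd s h1.1 h1.2 h2.1).differentiableWithinAt
  have hlim : (∫ y in Ioi (1 : ℝ), Ψ (1 / 2 + y * I)) - ∫ y in Ioi (1 : ℝ), Ψ (2 + y * I) =
      I * (0 - (∫ x in (1 / 2 : ℝ)..2, Ψ (x + (1 : ℝ) * I))) := by
    refine tendsto_nhds_unique (t1.sub t2) ?_
    have := (t3.sub_const (∫ x in (1 / 2 : ℝ)..2, Ψ (x + (1 : ℝ) * I))).const_mul I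
    refine this.congr' ?_
    filter_upwards [eventually_ge_atTop 1] with R hR
    exact (hrect R hR).symm
  rw [hlim, norm_mul, Complex.norm_I, one_mul, zero_sub, norm_neg]
  have h5 := intervalIntegral.norm_integral_le_of_norm_le_const (a := (1 / 2 : ℝ)) (b := 2)
    (f := fun x : ℝ => Ψ (x + (1 : ℝ) * I)) (C := M) ?_
  · refine h5.trans (le_of_eq ?_)
    rw [show |(2 : ℝ) - 1 / 2| = 3 / 2 by rw [abs_of_pos] <;> norm_num]
    ring
  · intro x hx
    rw [uIoc_of_le (by norm_num)] at hx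
    exact hM _ (by simpa using hx.1.le) (by simpa using hx.2) (by simp)

end Pool.Agent.H402R2.T4b
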