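import Mathlib
open Filter Topology MeasureTheory Metric Real
open scoped ENNReal

namespace Pool.Agent.H402R2.SubMean

theorem rpow_le_circleAverage {g : ℂ → ℂ} {w : ℂ} {r ρ p : ℝ} (hr : 0 < r) (hp : 0 < p)
    (hrρ : r < ρ) (hg : DifferentiableOn ℂ g (ball w ρ)) :
    ‖g w‖ ^ p ≤ circleAverage (fun z => ‖g z‖ ^ p) w r := by
  have habs : |r| = r := abs_of_pos hr
  have hcb : closedBall w |r| ⊆ ball w ρ := by rw [habs]; exact closedBall_subset_ball hrρ
  have han : AnalyticOnNhd ℂ g (closedBall w |r|) := (hg.analyticOnNhd isOpen_ball).mono hcb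
  have hcont : ContinuousOn (fun z => ‖g z‖ ^ p) (sphere w |r|) := by
    have h1 : ContinuousOn g (sphere w |r|) :=
      hg.continuousOn.mono (sphere_subset_closedBall.trans hcb)
    exact h1.norm.rpow_const (fun _ _ => Or.inr hp.le)
  have hint : CircleIntegrable (fun z => ‖g z‖ ^ p) w r := hcont.circleIntegrable'
  by_cases h0 : g w = 0
  · rw [h0, norm_zero, Real.zero_rpow hp.ne']
    exact circleAverage_nonneg_of_nonneg (fun z _ => by positivity)
  set c := ‖g w‖ with hcdef
  have hc : 0 < c := norm_pos_iff.2 h0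
  set L : ℂ → ℝ := fun z => c ^ p * (1 - p * Real.log c) + (c ^ p * p) * Real.log ‖g z‖ with hL
  have hlogint : CircleIntegrable (fun z => Real.log ‖g z‖) w r :=
    (han.mono sphere_subset_closedBall).meromorphicOn.circleIntegrable_log_norm
  have hlogint2 : CircleIntegrable (fun z => (c ^ p * p) • Real.log ‖g z‖) w r :=
    hlogint.const_mul _
  have hLint : CircleIntegrable L w r := (circleIntegrable_const _ w r).add hlogint2
  have hcod : g ⁻¹' {0}ᶜ ∈ codiscreteWithin (closedBall w |r|) :=
    han.preimage_zero_mem_codiscreteWithin h0 (mem_closedBall_self (abs_nonneg r))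
      ⟨⟨w, mem_closedBall_self (abs_nonneg r)⟩, (convex_closedBall _ _).isPreconnected⟩
  have hcod' : g ⁻¹' {0}ᶜ ∈ codiscreteWithin (sphere w |r|) :=
    codiscreteWithin_mono sphere_subset_closedBall hcod
  classical
  set F : ℂ → ℝ := fun z => if g z = 0 then L z else ‖g z‖ ^ p with hF
  have hFe : (fun z => ‖g z‖ ^ p) =ᶠ[codiscreteWithin (sphere w |r|)] F := by
    filter_upwards [hcod'] with z hz
    have hz' : g z ≠ 0 := hz
    simp [hF, hz']
  rw [circleAverage_congr_codiscreteWithin hFe hr.ne']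
  have h1 : circleAverage L w r ≤ circleAverage F w r := by
    apply circleAverage_mono hLint (hint.congr_codiscreteWithin hFe)
    intro z _
    simp only [hF]
    split_ifs with hz
    · exact le_rfl
    · have hx : 0 < ‖g z‖ := norm_pos_iff.2 hz
      have h2 := Real.add_one_le_exp (p * (Real.log ‖g z‖ - Real.log c))
      have h3 : ‖g z‖ ^ p = c ^ p * Real.exp (p * (Real.log ‖g z‖ - Real.log c)) := by
        rw [Real.rpow_def_of_pos hx, Real.rpow_def_of_pos hc, ← Real.exp_add]
        ring_nf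
      have h4 : 0 < c ^ p := Real.rpow_pos_of_pos hc p
      rw [h3, hL]
      simp only
      nlinarith
  refine le_trans ?_ h1
  have h2 : circleAverage L w r = c ^ p * (1 - p * Real.log c)
      + (c ^ p * p) * circleAverage (fun z => Real.log ‖g z‖) w r := by
    have e : L = (fun _ : ℂ => c ^ p * (1 - p * Real.log c)) + (fun z => (c ^ p * p) • Real.log ‖g z‖) := by
      funext z; simp [hL]
    rw [e, circleAverage_add (circleIntegrable_const _ w r) hlogint2, circleAverage_const,
      circleAverage_fun_smul]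
    simp
  have h3 : Real.log c ≤ circleAverage (fun z => Real.log ‖g z‖) w r := by
    rw [AnalyticOnNhd.circleAverage_log_norm hr.ne' han h0]
    have : 0 ≤ ∑ᶠ u, (MeromorphicOn.divisor g (closedBall w |r|) u : ℝ) * Real.log (r * ‖w - u‖⁻¹) := by
      apply finsum_nonneg
      intro u
      by_cases hu : u ∈ closedBall w |r|
      · apply mul_nonneg
        · have := (MeromorphicOn.AnalyticOnNhd.divisor_nonneg han) u
          exact_mod_cast this
        · by_cases huw : ‖w - u‖ = 0
          · simp [huw]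
          · apply Real.log_nonneg
            have hpos : 0 < ‖w - u‖ := lt_of_le_of_ne (norm_nonneg _) (Ne.symm huw)
            rw [← div_eq_mul_inv, one_le_div hpos]
            rw [mem_closedBall, dist_comm, dist_eq_norm, habs] at hu
            exact hu
      · rw [Function.locallyFinsuppWithin.apply_eq_zero_of_notMem _ hu]
        simp
    linarith
  rw [h2]
  have h4 : 0 < c ^ p := Real.rpow_pos_of_pos hc p
  nlinarith [mul_le_mul_of_nonneg_left h3 (mul_nonneg h4.le hp.le)]


/-- area version of the sub-mean value inequality -/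
theorem rpow_mul_le_lintegral {g : ℂ → ℂ} {w : ℂ} {ρ p : ℝ} (hρ : 0 < ρ) (hp : 0 < p)
    (hg : DifferentiableOn ℂ g (ball w ρ)) :
    ENNReal.ofReal (‖g w‖ ^ p * (π * ρ ^ 2)) ≤ ∫⁻ z in ball w ρ, ‖g z‖ₑ ^ p := by
  have e1 : ∫⁻ z in ball w ρ, ‖g z‖ₑ ^ p = ∫⁻ z, (ball (0:ℂ) ρ).indicator (fun z => ‖g (w + z)‖ₑ ^ p) z := by
    rw [← lintegral_indicator measurableSet_ball]
    rw [← lintegral_add_left_eq_self _ w]
    congr 1
    funext z
    simp only [Set.indicator, mem_ball, dist_self_add_left, dist_zero_right]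
  rw [e1, ← Complex.lintegral_comp_polarCoord_symm]
  set c := ‖g w‖ with hc
  set S : Set (ℝ × ℝ) := Set.Ioo 0 ρ ×ˢ Set.Ioo (-π) π with hS
  have hSsub : S ⊆ polarCoord.target := by
    rintro ⟨r, θ⟩ ⟨h1, h2⟩
    exact ⟨h1.1, h2⟩
  have hSm : MeasurableSet S := measurableSet_Ioo.prod measurableSet_Ioo
  refine le_trans ?_ (lintegral_mono_set hSsub)
  set G : ℝ × ℝ → ℝ≥0∞ := fun q => ENNReal.ofReal (q.1 * ‖g (circleMap w q.1 q.2)‖ ^ p) with hG
  have enorm_rpow : ∀ x : ℂ, ‖x‖ₑ ^ p = ENNReal.ofReal (‖x‖ ^ p) := by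
    intro x
    rw [← ofReal_norm, ENNReal.ofReal_rpow_of_nonneg (norm_nonneg _) hp.le]
  have e2 : ∫⁻ q in S, ENNReal.ofReal q.1 • (ball (0:ℂ) ρ).indicator (fun z => ‖g (w + z)‖ₑ ^ p)
      (Complex.polarCoord.symm q) = ∫⁻ q in S, G q := by
    apply setLIntegral_congr_fun hSm
    rintro ⟨r, θ⟩ ⟨h1, h2⟩
    have h1' : 0 < r ∧ r < ρ := h1
    have h3 : Complex.polarCoord.symm (r, θ) ∈ ball (0:ℂ) ρ := by
      rw [mem_ball_zero_iff, Complex.norm_polarCoord_symm]
      simp [abs_of_pos h1'.1, h1'.2]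
    simp only [Set.indicator_of_mem h3, smul_eq_mul, hG, enorm_rpow]
    rw [← ENNReal.ofReal_mul h1'.1.le]
    congr 5
    rw [circleMap, Complex.polarCoord_symm_apply, Complex.exp_mul_I]
    simp
  rw [e2]
  have hcm : ContinuousOn (fun q : ℝ × ℝ => q.1 * ‖g (circleMap w q.1 q.2)‖ ^ p) S := by
    have h1 : ContinuousOn (fun q : ℝ × ℝ => g (circleMap w q.1 q.2)) S := by
      apply hg.continuousOn.comp
      · apply Continuous.continuousOn
        unfold circleMap
        fun_prop
      · rintro ⟨r, θ⟩ ⟨h1, h2⟩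
        have h1' : 0 < r ∧ r < ρ := h1
        simp [circleMap, abs_of_pos h1'.1, h1'.2]
    exact continuousOn_fst.mul (h1.norm.rpow_const fun _ _ => Or.inr hp.le)
  have hGm : AEMeasurable G ((volume.restrict (Set.Ioo 0 ρ)).prod (volume.restrict (Set.Ioo (-π) π))) := by
    rw [Measure.prod_restrict, ← Measure.volume_eq_prod]
    exact ((hcm.aestronglyMeasurable hSm).aemeasurable).ennreal_ofReal
  rw [hS, Measure.volume_eq_prod, ← Measure.prod_restrict, lintegral_prod _ hGm]
  have hinner : ∀ r ∈ Set.Ioo 0 ρ, ENNReal.ofReal (2 * π * c ^ p) * ENNReal.ofReal r ≤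
      ∫⁻ θ in Set.Ioo (-π) π, G (r, θ) := by
    intro r hr
    have h1 := rpow_le_circleAverage hr.1 hp hr.2 hg
    rw [circleAverage_eq_integral_add (-π), intervalIntegral.integral_comp_add_right
      (fun θ => ‖g (circleMap w r θ)‖ ^ p)] at h1
    have h2 : (0:ℝ) + -π = -π := by ring
    have h3 : 2 * π + -π = π := by ring
    rw [h2, h3, intervalIntegral.integral_of_le (by linarith [pi_pos]), integral_Ioc_eq_integral_Ioo] at h1
    have hint : IntegrableOn (fun θ => r * ‖g (circleMap w r θ)‖ ^ p) (Set.Ioo (-π) π) := by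
      have h4 : Continuous (fun θ => r * ‖g (circleMap w r θ)‖ ^ p) := by
        have h5 : Continuous (fun θ => g (circleMap w r θ)) := by
          apply hg.continuousOn.comp_continuous
          · unfold circleMap; fun_prop
          · intro θ
            simp [circleMap, abs_of_pos hr.1, hr.2]
        exact continuous_const.mul (h5.norm.rpow_const fun _ => Or.inr hp.le)
      exact (h4.continuousOn.integrableOn_compact isCompact_Icc).mono_set Set.Ioo_subset_Icc_self
    have h6 : ∫⁻ θ in Set.Ioo (-π) π, G (r, θ)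
        = ENNReal.ofReal (∫ θ in Set.Ioo (-π) π, r * ‖g (circleMap w r θ)‖ ^ p) := by
      rw [ofReal_integral_eq_lintegral_ofReal hint]
      exact Filter.Eventually.of_forall fun θ => mul_nonneg hr.1.le (by positivity)
    rw [h6, ← ENNReal.ofReal_mul (by positivity)]
    apply ENNReal.ofReal_le_ofReal
    rw [integral_const_mul]
    have h7 : c ^ p * (2 * π) ≤ ∫ θ in Set.Ioo (-π) π, ‖g (circleMap w r θ)‖ ^ p := by
      rw [smul_eq_mul, ← div_eq_inv_mul, le_div_iff₀ (by positivity)] at h1
      exact h1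
    nlinarith [hr.1]
  calc ENNReal.ofReal (c ^ p * (π * ρ ^ 2))
      = ENNReal.ofReal (2 * π * c ^ p) * ∫⁻ r in Set.Ioo 0 ρ, ENNReal.ofReal r := by
        have h1 : ∫⁻ r in Set.Ioo 0 ρ, ENNReal.ofReal r = ENNReal.ofReal (∫ r in Set.Ioo 0 ρ, r) := by
          rw [ofReal_integral_eq_lintegral_ofReal]
          · exact (continuous_id.continuousOn.integrableOn_compact isCompact_Icc).mono_set Set.Ioo_subset_Icc_self
          · rw [Filter.EventuallyLE, ae_restrict_iff' measurableSet_Ioo]
            exact Filter.Eventually.of_forall fun r hr => hr.1.le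
        rw [h1, ← ENNReal.ofReal_mul (by positivity), ← integral_Ioc_eq_integral_Ioo,
          ← intervalIntegral.integral_of_le hρ.le, integral_id]
        congr 1
        ring
    _ = ∫⁻ r in Set.Ioo 0 ρ, ENNReal.ofReal (2 * π * c ^ p) * ENNReal.ofReal r := by
        rw [lintegral_const_mul _ (by fun_prop)]
    _ ≤ ∫⁻ r in Set.Ioo 0 ρ, ∫⁻ θ in Set.Ioo (-π) π, G (r, θ) := by
        apply setLIntegral_mono' measurableSet_Ioo
        exact hinner

end Pool.Agent.H402R2.SubMean
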