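import Pool.Agent.H306R2.SM.Defs
import Pool.Agent.H306R2.ZetaGrowth
import Pool.Agent.H402R2.T4bA

set_option autoImplicit false

/-! Task T4b: bounds for the test function. -/

namespace Pool.Agent.H402R2.T4b

open MeasureTheory Filter Topology Complex Set Pool.Agent.H306R2 Pool.Agent.H306R2.SM

noncomputable section

/-- the base of the power in `Gf` -/
def zz (δ : ℝ) : ℂ := 2 * Real.pi * Complex.I + 2 * Real.pi * δ

lemma zz_re (δ : ℝ) : (zz δ).re = 2 * Real.pi * δ := by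
  unfold zz; simp

lemma zz_im (δ : ℝ) : (zz δ).im = 2 * Real.pi := by
  unfold zz; simp

lemma zz_ne (δ : ℝ) : zz δ ≠ 0 := by
  intro h
  have := congrArg Complex.im h
  rw [zz_im] at this
  simp [Real.pi_ne_zero] at this

lemma zz_norm (δ : ℝ) : 2 * Real.pi ≤ ‖zz δ‖ := by
  have h := Complex.abs_im_le_norm (zz δ)
  rw [zz_im, abs_of_pos (by positivity)] at h
  exact h

lemma zz_arg (δ : ℝ) (hδ : 0 < δ) : 0 ≤ arg (zz δ) ∧ arg (zz δ) < Real.pi / 2 := by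
  have hpi := Real.pi_pos
  have h1 : 0 ≤ arg (zz δ) := Complex.arg_nonneg_iff.2 (by rw [zz_im]; positivity)
  have h2 : |arg (zz δ)| < Real.pi / 2 :=
    Complex.abs_arg_lt_pi_div_two_iff.2 (Or.inl (by rw [zz_re]; positivity))
  exact ⟨h1, (le_abs_self _).trans_lt h2⟩

/-- basic bound of `Gf` -/
lemma Gf_norm (k : ℕ) (δ : ℝ) (hδ : 0 < δ) (s : ℂ) (hs : 0 < s.re) (θ : ℝ) (hθ0 : 0 ≤ θ)
    (hθ : θ < Real.pi / 2) :
    ‖Gf k δ s‖ ≤ δ ^ (k + 1) / (k.factorial : ℝ) *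
      (Real.exp (-θ * |s.im|) * Real.Gamma (s.re + k) / Real.cos θ ^ (s.re + k)) *
        Real.exp (arg (zz δ) * s.im) := by
  have hpi := Real.pi_pos
  have hcos : 0 < Real.cos θ := Real.cos_pos_of_mem_Ioo ⟨by linarith, hθ⟩
  have hk : (0 : ℝ) < s.re + k := by positivity
  have hG := Pool.Agent.Helper242.KK.norm_Gamma_le_of_angle (σ := s.re + k) (v := s.im) (θ := θ) hk hθ0 hθ
  have e0 : (((s.re + k : ℝ) : ℂ) + s.im * I) = s + k := by
    apply Complex.ext <;> simp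
  rw [e0] at hG
  have hz : ‖zz δ ^ (-s - (k : ℂ))‖ = ‖zz δ‖ ^ (-(s.re + k)) * Real.exp (arg (zz δ) * s.im) := by
    rw [norm_cpow_of_ne_zero (zz_ne δ), div_eq_mul_inv, ← Real.exp_neg]
    congr 2
    · simp; ring
    · simp
  have hz2 : (2 * Real.pi) ^ k * ‖zz δ‖ ^ (-(s.re + k)) ≤ 1 := by
    have h1 := zz_norm δ
    have h2 : ‖zz δ‖ ^ (-(s.re + k)) ≤ (2 * Real.pi) ^ (-(s.re + k)) :=
      Real.rpow_le_rpow_of_nonpos (by positivity) h1 (by linarith)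
    have h3 : (2 * Real.pi) ^ k * (2 * Real.pi) ^ (-(s.re + k)) ≤ 1 := by
      rw [← Real.rpow_natCast, ← Real.rpow_add (by positivity)]
      apply Real.rpow_le_one_of_one_le_of_nonpos
      · linarith [Real.pi_gt_three]
      · linarith
    calc (2 * Real.pi) ^ k * ‖zz δ‖ ^ (-(s.re + k)) ≤ (2 * Real.pi) ^ k * (2 * Real.pi) ^ (-(s.re + k)) := by
          gcongr
      _ ≤ 1 := h3
  unfold Gf
  change ‖((δ ^ (k + 1) * (2 * Real.pi) ^ k / (k.factorial : ℝ) : ℝ) : ℂ) * Complex.Gamma (s + k) *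
    (zz δ) ^ (-s - (k : ℂ))‖ ≤ _
  rw [norm_mul, norm_mul, Complex.norm_real, hz, Real.norm_of_nonneg (by positivity)]
  have h4 : 0 ≤ Real.exp (-θ * |s.im|) * Real.Gamma (s.re + k) / Real.cos θ ^ (s.re + k) :=
    (norm_nonneg _).trans hG
  calc δ ^ (k + 1) * (2 * Real.pi) ^ k / (k.factorial : ℝ) * ‖Complex.Gamma (s + k)‖ *
      (‖zz δ‖ ^ (-(s.re + k)) * Real.exp (arg (zz δ) * s.im)) =
      δ ^ (k + 1) / (k.factorial : ℝ) * ‖Complex.Gamma (s + k)‖ *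
        ((2 * Real.pi) ^ k * ‖zz δ‖ ^ (-(s.re + k))) * Real.exp (arg (zz δ) * s.im) := by ring
    _ ≤ δ ^ (k + 1) / (k.factorial : ℝ) *
      (Real.exp (-θ * |s.im|) * Real.Gamma (s.re + k) / Real.cos θ ^ (s.re + k)) * 1 *
        Real.exp (arg (zz δ) * s.im) := by gcongr
    _ = _ := by ring

/-- `Γ(σ+k) ≤ (k+1)!` for `σ ∈ [1/2,2]`, `k ≥ 2`. -/
lemma Gamma_fac (k : ℕ) (hk : 2 ≤ k) (σ : ℝ) (h1 : 1 / 2 ≤ σ) (h2 : σ ≤ 2) :
    Real.Gamma (σ + k) ≤ ((k + 1 : ℕ).factorial : ℝ) := by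
  have hk' : (2 : ℝ) ≤ k := by exact_mod_cast hk
  have h := Real.Gamma_strictMonoOn_Ici.monotoneOn (show σ + (k : ℝ) ∈ Ici (2 : ℝ) by
    simp only [mem_Ici]; linarith) (show (2 : ℝ) + (k : ℝ) ∈ Ici (2 : ℝ) by
    simp only [mem_Ici]; linarith) (by linarith)
  refine h.trans (le_of_eq ?_)
  have e : (2 : ℝ) + k = ((k + 1 : ℕ) : ℝ) + 1 := by push_cast; ring
  rw [e, Real.Gamma_nat_eq_factorial]

/-- bound of `Gf` near the real axis, or for negative imaginary part -/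
lemma Gf_small (k : ℕ) (hk : 2 ≤ k) (δ : ℝ) (hδ : 0 < δ) (s : ℂ) (h1 : 1 / 2 ≤ s.re) (h2 : s.re ≤ 2)
    (h3 : s.im ≤ 1) :
    ‖Gf k δ s‖ ≤ 2 * ((k : ℝ) + 1) * (2 * δ) ^ (k + 1) * Real.exp 2 * Real.exp (-(1 / 2 * |s.im|)) := by
  have hpi := Real.pi_gt_three
  have h := Gf_norm k δ hδ s (by linarith) (1 / 2) (by norm_num) (by linarith)
  refine h.trans ?_
  have hcos : 1 / 2 ≤ Real.cos (1 / 2) := by
    have := Real.one_sub_sq_div_two_le_cos (x := 1 / 2)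
    linarith
  have hc2 : (1 / 2 : ℝ) ^ (s.re + k) ≤ Real.cos (1 / 2) ^ (s.re + k) :=
    Real.rpow_le_rpow (by norm_num) hcos (by positivity)
  have hc3 : (1 / 2 : ℝ) ^ (k + 2) ≤ (1 / 2 : ℝ) ^ (s.re + k) := by
    rw [← Real.rpow_natCast]
    apply Real.rpow_le_rpow_of_exponent_ge (by norm_num) (by norm_num)
    push_cast; linarith
  have hG := Gamma_fac k hk s.re h1 h2
  have hG0 : 0 ≤ Real.Gamma (s.re + k) := (Real.Gamma_pos_of_pos (by positivity)).le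
  have hφ := zz_arg δ hδ
  have hexp : Real.exp (arg (zz δ) * s.im) ≤ Real.exp 2 := by
    apply Real.exp_le_exp.2
    rcases le_total s.im 0 with h | h
    · have : arg (zz δ) * s.im ≤ 0 := mul_nonpos_of_nonneg_of_nonpos hφ.1 h
      linarith
    · calc arg (zz δ) * s.im ≤ arg (zz δ) * 1 := mul_le_mul_of_nonneg_left h3 hφ.1
        _ ≤ 2 := by linarith [hφ.2, Real.pi_le_four]
  have hfac : ((k + 1 : ℕ).factorial : ℝ) = ((k : ℝ) + 1) * (k.factorial : ℝ) := by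
    rw [Nat.factorial_succ]; push_cast; ring
  have hkf : (0 : ℝ) < (k.factorial : ℝ) := by positivity
  calc δ ^ (k + 1) / (k.factorial : ℝ) *
      (Real.exp (-(1 / 2) * |s.im|) * Real.Gamma (s.re + k) / Real.cos (1 / 2) ^ (s.re + k)) *
        Real.exp (arg (zz δ) * s.im) ≤
      δ ^ (k + 1) / (k.factorial : ℝ) *
      (Real.exp (-(1 / 2) * |s.im|) * (((k : ℝ) + 1) * (k.factorial : ℝ)) / (1 / 2 : ℝ) ^ (k + 2)) *
        Real.exp 2 := by
        rw [← hfac]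
        gcongr
        exact hc3.trans hc2
    _ = 2 * ((k : ℝ) + 1) * (2 * δ) ^ (k + 1) * Real.exp 2 * Real.exp (-(1 / 2 * |s.im|)) := by
        rw [mul_pow, one_div, inv_pow, div_inv_eq_mul, pow_succ 2 (k + 1)]
        have e : Real.exp (-2⁻¹ * |s.im|) = Real.exp (-(2⁻¹ * |s.im|)) := by
          congr 1; ring
        rw [e]
        field_simp

lemma Gf_diff (k : ℕ) (δ : ℝ) (s : ℂ) (hs : 0 < s.re) : DifferentiableAt ℂ (Gf k δ) s := by
  unfold Gf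
  apply DifferentiableAt.mul
  · apply DifferentiableAt.const_mul
    have h1 : DifferentiableAt ℂ Complex.Gamma (s + k) := by
      apply Complex.differentiableAt_Gamma
      intro m hm
      have := congrArg Complex.re hm
      simp at this
      have h1 : (0:ℝ) ≤ m := Nat.cast_nonneg m
      have h2 : (0:ℝ) ≤ k := Nat.cast_nonneg k
      linarith
    exact h1.comp s (by fun_prop)
  · apply DifferentiableAt.const_cpow (by fun_prop)
    left
    exact zz_ne δ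

/-- the full integrand -/
def Ph (k : ℕ) (δ r : ℝ) (s : ℂ) : ℂ :=
  riemannZeta s ^ 3 * Gf k δ s * Complex.exp ((s - 1 / 2) * (Real.log r : ℂ))

lemma Ph_diff (k : ℕ) (δ r : ℝ) (s : ℂ) (hs : 0 < s.re) (hs1 : s ≠ 1) :
    DifferentiableAt ℂ (Ph k δ r) s := by
  unfold Ph
  exact (((differentiableAt_riemannZeta hs1).pow 3).mul (Gf_diff k δ s hs)).mul (by fun_prop)

lemma exp_norm (r : ℝ) (hr : 1 ≤ r) (s : ℂ) (h2 : s.re ≤ 2) :
    ‖Complex.exp ((s - 1 / 2) * (Real.log r : ℂ))‖ ≤ r ^ (3 / 2 : ℝ) := by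
  rw [Complex.norm_exp, Complex.re_mul_ofReal, Real.rpow_def_of_pos (by linarith)]
  apply Real.exp_le_exp.2
  have h0 := Real.log_nonneg hr
  have e : (s - 1 / 2).re = s.re - 1 / 2 := by
    rw [Complex.sub_re]; norm_num
  rw [e]
  nlinarith

lemma zeta_three (s : ℂ) (h1 : 1 / 2 ≤ s.re) (h2 : s.re ≤ 2) (h3 : 1 / 2 ≤ ‖s - 1‖) :
    ‖riemannZeta s ^ 3‖ ≤ 216 * (|s.im| + 3) ^ 6 := by
  have h := zeta_norm_le h1 h3
  have hs : ‖s‖ ≤ 2 + |s.im| := by
    have := Complex.norm_le_abs_re_add_abs_im s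
    rw [abs_of_nonneg (by linarith : 0 ≤ s.re)] at this
    linarith
  rw [norm_pow]
  calc ‖riemannZeta s‖ ^ 3 ≤ (6 * (‖s‖ + 1) ^ 2) ^ 3 := by gcongr
    _ ≤ (6 * (2 + |s.im| + 1) ^ 2) ^ 3 := by gcongr
    _ = _ := by ring

/-- bound on the small part of the strip -/
lemma Ph_small (k : ℕ) (hk : 2 ≤ k) (δ : ℝ) (hδ : 0 < δ) (r : ℝ) (hr : 1 ≤ r) (s : ℂ)
    (h1 : 1 / 2 ≤ s.re) (h2 : s.re ≤ 2) (h3 : s.im ≤ 1) (h4 : 0 ≤ s.im) (h5 : 1 / 2 ≤ ‖s - 1‖) :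
    ‖Ph k δ r s‖ ≤ 216 * 4 ^ 6 * (2 * Real.exp 2) * (((k : ℝ) + 1) * (2 * δ) ^ (k + 1) * r ^ (3 / 2 : ℝ)) := by
  unfold Ph
  rw [norm_mul, norm_mul]
  have a1 := zeta_three s h1 h2 h5
  have a2 := Gf_small k hk δ hδ s h1 h2 h3
  have a3 := exp_norm r hr s h2
  have a4 : 216 * (|s.im| + 3) ^ 6 ≤ 216 * (4 : ℝ) ^ 6 := by
    rw [abs_of_nonneg h4]
    have : s.im + 3 ≤ 4 := by linarith
    gcongr
  have a5 : Real.exp (-(1 / 2 * |s.im|)) ≤ 1 := by
    rw [Real.exp_le_one_iff]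
    have := abs_nonneg s.im
    linarith
  have hr0 : 0 ≤ r := by linarith
  calc ‖riemannZeta s ^ 3‖ * ‖Gf k δ s‖ * ‖Complex.exp ((s - 1 / 2) * (Real.log r : ℂ))‖ ≤
      (216 * (4 : ℝ) ^ 6) * (2 * ((k : ℝ) + 1) * (2 * δ) ^ (k + 1) * Real.exp 2 * 1) * r ^ (3 / 2 : ℝ) := by
        gcongr
        · exact a1.trans a4
        · exact a2.trans (by gcongr)
    _ = _ := by ring

/-- decay at infinity -/
lemma Ph_decay (k : ℕ) (δ : ℝ) (hδ : 0 < δ) (r : ℝ) (hr : 1 ≤ r) :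
    ∃ B η : ℝ, 0 < η ∧ ∀ s : ℂ, 1 / 2 ≤ s.re → s.re ≤ 2 → 1 ≤ s.im →
      ‖Ph k δ r s‖ ≤ B * Real.exp (-(η * s.im)) := by
  have hpi := Real.pi_gt_three
  obtain ⟨hφ0, hφ1⟩ := zz_arg δ hδ
  set φ := arg (zz δ) with hφ
  set θ := (φ + Real.pi / 2) / 2 with hθ
  have hθ0 : 0 ≤ θ := by positivity
  have hθ1 : θ < Real.pi / 2 := by rw [hθ]; linarith
  have hcos : 0 < Real.cos θ := Real.cos_pos_of_mem_Ioo ⟨by linarith, hθ1⟩
  have hcos1 : Real.cos θ ≤ 1 := Real.cos_le_one θ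
  set η := (θ - φ) / 2 with hη
  have hη0 : 0 < η := by rw [hη, hθ]; linarith
  -- bound of the real Gamma on a compact
  obtain ⟨G, hG⟩ : ∃ G : ℝ, ∀ x ∈ Icc (1 / 2 : ℝ) 2, |Real.Gamma (x + k)| ≤ G := by
    have hc : ContinuousOn (fun x : ℝ => Real.Gamma (x + k)) (Icc (1 / 2 : ℝ) 2) := by
      intro x hx
      have hx0 : 0 < x + k := by
        have : (0:ℝ) ≤ k := Nat.cast_nonneg k
        linarith [hx.1]
      have : ContinuousAt Real.Gamma (x + k) := by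
        apply (Real.differentiableAt_Gamma _).continuousAt
        intro m hm
        have : (0:ℝ) ≤ m := Nat.cast_nonneg m
        linarith
      exact (ContinuousAt.comp (f := fun x : ℝ => x + (k : ℝ)) this (by fun_prop)).continuousWithinAt
    obtain ⟨C, hC⟩ := isCompact_Icc.exists_bound_of_continuousOn hc
    exact ⟨C, fun x hx => by simpa using hC x hx⟩
  have hG0 : 0 ≤ G := (abs_nonneg _).trans (hG 1 ⟨by norm_num, by norm_num⟩)
  refine ⟨216 * (720 / η ^ 6 * Real.exp (3 * η)) * (δ ^ (k + 1) / (k.factorial : ℝ) *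
    (G / Real.cos θ ^ ((2 : ℝ) + k))) * r ^ (3 / 2 : ℝ), η, hη0, fun s h1 h2 h3 => ?_⟩
  have him : |s.im| = s.im := abs_of_nonneg (by linarith)
  have hs1 : 1 / 2 ≤ ‖s - 1‖ := by
    have := Complex.abs_im_le_norm (s - 1)
    simp only [Complex.sub_im, Complex.one_im, sub_zero] at this
    rw [him] at this
    linarith
  have a1 := zeta_three s h1 h2 hs1
  have a2 := Gf_norm k δ hδ s (by linarith) θ hθ0 hθ1
  have a3 := exp_norm r hr s h2
  rw [him] at a1 a2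
  have a4 : (s.im + 3) ^ 6 ≤ 720 / η ^ 6 * (Real.exp (3 * η) * Real.exp (η * s.im)) := by
    have h := Real.pow_div_factorial_le_exp (η * (s.im + 3)) (by positivity) 6
    rw [← Real.exp_add, show 3 * η + η * s.im = η * (s.im + 3) by ring]
    have e : ((6 : ℕ).factorial : ℝ) = 720 := by norm_num [Nat.factorial]
    rw [e, mul_pow, div_le_iff₀ (by norm_num)] at h
    rw [div_mul_eq_mul_div, le_div_iff₀ (by positivity)]
    linarith
  have hcc : Real.cos θ ^ ((2 : ℝ) + k) ≤ Real.cos θ ^ (s.re + k) :=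
    Real.rpow_le_rpow_of_exponent_ge hcos hcos1 (by linarith)
  have hGs : Real.Gamma (s.re + k) ≤ G := (le_abs_self _).trans (hG s.re ⟨h1, h2⟩)
  have hr0 : 0 ≤ r := by linarith
  unfold Ph
  rw [norm_mul, norm_mul]
  calc ‖riemannZeta s ^ 3‖ * ‖Gf k δ s‖ * ‖Complex.exp ((s - 1 / 2) * (Real.log r : ℂ))‖ ≤
      (216 * (720 / η ^ 6 * (Real.exp (3 * η) * Real.exp (η * s.im)))) *
        (δ ^ (k + 1) / (k.factorial : ℝ) *
          (Real.exp (-θ * s.im) * G / Real.cos θ ^ ((2 : ℝ) + k)) * Real.exp (φ * s.im)) *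
        r ^ (3 / 2 : ℝ) := by
        gcongr
        · exact a1.trans (by gcongr)
        · refine a2.trans ?_
          gcongr
    _ = 216 * (720 / η ^ 6 * Real.exp (3 * η)) * (δ ^ (k + 1) / (k.factorial : ℝ) *
        (G / Real.cos θ ^ ((2 : ℝ) + k))) * r ^ (3 / 2 : ℝ) *
        (Real.exp (η * s.im) * Real.exp (-θ * s.im) * Real.exp (φ * s.im)) := by ring
    _ = _ := by
        congr 1
        rw [← Real.exp_add, ← Real.exp_add]
        congr 1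
        rw [hη]; ring

end

end Pool.Agent.H402R2.T4b
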